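import Mathlib

/-! A binomial coefficient is not a product of primes of nearly equal size. -/

set_option autoImplicit false

namespace Pool.Agent.K1H82.BC

open Finset Nat

theorem fact_ne_pow {k : ℕ} (hk : 2 ≤ k) (c : ℕ) : k ! ≠ c ^ k := by
  intro h
  have h2 : 2 ∣ k ! := Nat.dvd_factorial (by norm_num) hk
  have h3 : 2 ∣ c := Nat.prime_two.dvd_of_dvd_pow (h ▸ h2)
  have h4 : 2 ^ k ∣ k ! := h ▸ pow_dvd_pow_of_dvd h3 k
  have h5 : emultiplicity 2 k ! < k := Nat.emultiplicity_two_factorial_lt (by omega)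
  exact absurd h4 (emultiplicity_lt_iff_not_dvd.mp h5)

/-- the part of `n - i` composed of primes of `B` -/
def mm (B : Finset ℕ) (n i : ℕ) : ℕ := ∏ p ∈ B.filter (fun p => p ∣ n - i), p

def ss (B : Finset ℕ) (n i : ℕ) : ℕ := (B.filter (fun p => p ∣ n - i)).card

theorem mm_dvd {B : Finset ℕ} (hB : ∀ p ∈ B, p.Prime) (n i : ℕ) : mm B n i ∣ n - i :=
  Finset.prod_primes_dvd _ (fun p hp => (hB p (mem_filter.mp hp).1).prime)
    (fun p hp => (mem_filter.mp hp).2)

theorem prod_mm {B : Finset ℕ} {n k : ℕ} (hB : ∀ p ∈ B, p.Prime) (hk : ∀ p ∈ B, k < p)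
    (hP : n.choose k = ∏ p ∈ B, p) (hkn : k ≤ n) :
    ∏ i ∈ range k, mm B n i = ∏ p ∈ B, p := by
  have h1 : ∀ i ∈ range k, mm B n i = ∏ p ∈ B, if p ∣ n - i then p else 1 := fun i _ => by
    rw [mm, prod_filter]
  rw [prod_congr rfl h1, prod_comm]
  refine prod_congr rfl fun p hp => ?_
  have hd : p ∣ ∏ i ∈ range k, (n - i) := by
    rw [← Nat.descFactorial_eq_prod_range, Nat.descFactorial_eq_factorial_mul_choose, hP]
    exact Dvd.dvd.mul_left (dvd_prod_of_mem _ hp) _
  obtain ⟨i, hi, hpi⟩ := ((hB p hp).prime.dvd_finsetProd_iff _).mp hd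
  rw [prod_eq_single i, if_pos hpi]
  · intro j hj hji
    rw [if_neg]
    intro hpj
    have hi' := mem_range.mp hi
    have hj' := mem_range.mp hj
    have hkp := hk p hp
    rcases lt_or_gt_of_ne hji with h | h
    · have h2 := Nat.dvd_sub hpj hpi
      have h3 : n - j - (n - i) = i - j := by omega
      rw [h3] at h2
      have := Nat.le_of_dvd (by omega) h2
      omega
    · have h2 := Nat.dvd_sub hpi hpj
      have h3 : n - i - (n - j) = j - i := by omega
      rw [h3] at h2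
      have := Nat.le_of_dvd (by omega) h2
      omega
  · intro h
    exact absurd hi h

theorem comb {k n a b : ℕ} {B : Finset ℕ} (hk : 2 ≤ k)
    (hB : ∀ p ∈ B, p.Prime ∧ a ≤ p ∧ p ≤ b) (hne : B.Nonempty)
    (hP : n.choose k = ∏ p ∈ B, p) (ha : 2 * k ! + k < a) {θ : ℝ} (hθ0 : 0 ≤ θ)
    (hθ : 4 * (k ! : ℝ) * θ ≤ 1) (hb : ∀ s ≤ B.card, (b : ℝ) ^ s ≤ (1 + θ) * (a : ℝ) ^ s) :
    False := by
  have hKpos : 0 < k ! := Nat.factorial_pos k
  have hBp : ∀ p ∈ B, p.Prime := fun p hp => (hB p hp).1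
  have hBk : ∀ p ∈ B, k < p := fun p hp => by have := (hB p hp).2.1; omega
  have hPpos : 0 < ∏ p ∈ B, p := prod_pos fun p hp => (hBp p hp).pos
  have hkn : k ≤ n := by
    by_contra h
    rw [Nat.choose_eq_zero_of_lt (not_le.mp h)] at hP
    omega
  set m : ℕ → ℕ := mm B n with hm
  set c : ℕ → ℕ := fun i => (n - i) / m i with hc
  have hcm : ∀ i, c i * m i = n - i := fun i => Nat.div_mul_cancel (mm_dvd hBp n i)
  have hpm : ∏ i ∈ range k, m i = ∏ p ∈ B, p := prod_mm hBp hBk hP hkn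
  have hpc : ∏ i ∈ range k, c i = k ! := by
    have h1 : (∏ i ∈ range k, c i) * ∏ p ∈ B, p = k ! * ∏ p ∈ B, p := by
      rw [← hpm, ← prod_mul_distrib, prod_congr rfl fun i _ => hcm i,
        ← Nat.descFactorial_eq_prod_range, Nat.descFactorial_eq_factorial_mul_choose, hP, hpm]
    exact Nat.eq_of_mul_eq_mul_right hPpos h1
  have hc1 : ∀ i < k, 1 ≤ c i := by
    intro i hi
    have h1 := hcm i
    rcases Nat.eq_zero_or_pos (c i) with h0 | h0
    · rw [h0, zero_mul] at h1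
      omega
    · exact h0
  have hcK : ∀ i < k, c i ≤ k ! := fun i hi =>
    Nat.le_of_dvd hKpos (hpc ▸ dvd_prod_of_mem _ (mem_range.mpr hi))
  have hlow : ∀ i, a ^ ss B n i ≤ m i := by
    intro i
    rw [ss, hm, mm, ← prod_const]
    exact prod_le_prod (fun _ _ => Nat.zero_le _) fun p hp => (hB p (mem_filter.mp hp).1).2.1
  have hup : ∀ i, (m i : ℝ) ≤ (1 + θ) * (a : ℝ) ^ ss B n i := by
    intro i
    refine le_trans ?_ (hb _ (card_filter_le _ _))
    have : m i ≤ b ^ ss B n i := by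
      rw [ss, hm, mm, ← prod_const]
      exact prod_le_prod (fun _ _ => Nat.zero_le _) fun p hp => (hB p (mem_filter.mp hp).1).2.2
    exact_mod_cast this
  have hstep : ∀ i j, i < k → j < k → c i * m i ≤ c j * m j + k := by
    intro i j hi hj
    rw [hcm, hcm]
    omega
  have ha1 : 1 ≤ a := by omega
  have haR : (2 * (k ! : ℝ) + k) < a := by exact_mod_cast ha
  have hK1 : (1 : ℝ) ≤ k ! := by exact_mod_cast hKpos
  have hθ1 : θ ≤ 1 / 4 := by nlinarith
  -- equal numbers of primes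
  have hs : ∀ i j, i < k → j < k → ss B n i ≤ ss B n j := by
    intro i j hi hj
    by_contra hlt
    push Not at hlt
    have h1 : a * a ^ ss B n j ≤ a ^ ss B n i := by
      rw [← pow_succ']
      exact Nat.pow_le_pow_right ha1 hlt
    have h2 : a * a ^ ss B n j ≤ c j * m j + k :=
      (h1.trans (hlow i)).trans ((Nat.le_mul_of_pos_left _ (hc1 i hi)).trans (hstep i j hi hj))
    have h3 : ((a : ℝ) * (a : ℝ) ^ ss B n j) ≤ c j * m j + k := by exact_mod_cast h2
    have h4 : (1 : ℝ) ≤ (a : ℝ) ^ ss B n j := one_le_pow₀ (by exact_mod_cast ha1)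
    have h5 : (c j : ℝ) * m j ≤ k ! * ((1 + θ) * (a : ℝ) ^ ss B n j) :=
      mul_le_mul (by exact_mod_cast hcK j hj) (hup j) (by positivity) (by positivity)
    have h6 : (k ! : ℝ) * ((1 + θ) * (a : ℝ) ^ ss B n j) ≤ 2 * k ! * (a : ℝ) ^ ss B n j := by
      have : (0 : ℝ) ≤ (k ! : ℝ) * (a : ℝ) ^ ss B n j := by positivity
      nlinarith
    have h7 : (k : ℝ) ≤ k * (a : ℝ) ^ ss B n j := le_mul_of_one_le_right (by positivity) h4
    have h8 : (a : ℝ) * (a : ℝ) ^ ss B n j ≤ (2 * k ! + k) * (a : ℝ) ^ ss B n j := by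
      linarith
    have h9 := le_of_mul_le_mul_right h8 (by linarith)
    linarith
  have hseq : ∀ i < k, ss B n i = ss B n 0 := fun i hi =>
    le_antisymm (hs i 0 hi (by omega)) (hs 0 i (by omega) hi)
  -- the number is positive
  have hspos : 1 ≤ ss B n 0 := by
    by_contra h0
    have h0 : ss B n 0 = 0 := by omega
    have h1 : ∏ i ∈ range k, m i = 1 := by
      refine prod_eq_one fun i hi => ?_
      have h2 := hseq i (mem_range.mp hi)
      rw [h0, ss, Finset.card_eq_zero] at h2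
      rw [hm, mm, h2, prod_empty]
    rw [hpm] at h1
    obtain ⟨p, hp⟩ := hne
    have h2 : p ∣ 1 := h1 ▸ dvd_prod_of_mem _ hp
    have := (hBp p hp).one_lt
    have := Nat.le_of_dvd one_pos h2
    omega
  -- equal cofactors
  have hcc : ∀ i j, i < k → j < k → c i ≤ c j := by
    intro i j hi hj
    by_contra hlt
    push Not at hlt
    have h1 : (c j + 1) * a ^ ss B n 0 ≤ c j * m j + k := by
      refine le_trans ?_ (hstep i j hi hj)
      exact Nat.mul_le_mul hlt ((hseq i hi) ▸ hlow i)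
    have h2 : ((c j : ℝ) + 1) * (a : ℝ) ^ ss B n 0 ≤ c j * m j + k := by exact_mod_cast h1
    have h3 : (c j : ℝ) * m j ≤ c j * ((1 + θ) * (a : ℝ) ^ ss B n 0) :=
      mul_le_mul_of_nonneg_left ((hseq j hj) ▸ hup j) (by positivity)
    have h4 : (a : ℝ) ≤ (a : ℝ) ^ ss B n 0 := by
      exact_mod_cast Nat.le_self_pow (by omega) a
    have h5 : (c j : ℝ) ≤ k ! := by exact_mod_cast hcK j hj
    have h6 : (c j : ℝ) * θ ≤ 1 / 4 := by nlinarith
    have h7 : (c j : ℝ) * θ * (a : ℝ) ^ ss B n 0 ≤ 1 / 4 * (a : ℝ) ^ ss B n 0 :=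
      mul_le_mul_of_nonneg_right h6 (by positivity)
    have h8 : (k : ℝ) ≤ k ! := by exact_mod_cast Nat.self_le_factorial k
    have h9 : (0 : ℝ) ≤ k := by positivity
    nlinarith
  have hall : ∀ i ∈ range k, c i = c 0 := fun i hi =>
    le_antisymm (hcc i 0 (mem_range.mp hi) (by omega)) (hcc 0 i (by omega) (mem_range.mp hi))
  rw [prod_congr rfl hall, prod_const, card_range] at hpc
  exact fact_ne_pow hk _ hpc.symm

end Pool.Agent.K1H82.BC
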