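import Pool.Agent.H295R3.Hoheisel
import Pool.Agent.K1H82.BC.Comb

/-! Blocks of consecutive primes whose product is a binomial coefficient are long. -/

set_option autoImplicit false

namespace Pool.Agent.K1H82.BC

open Finset Filter
open Pool.Agent.H469R10.HO (Hoheisel)

/-- the block -/
def Bl (a b : ℕ) : Finset ℕ := (Icc a b).filter Nat.Prime

theorem exp_le {y : ℝ} (h0 : 0 ≤ y) (h1 : y ≤ 1 / 2) : Real.exp y ≤ 1 + 2 * y := by
  have h2 := Real.one_sub_le_exp_neg y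
  have h3 : Real.exp y * Real.exp (-y) = 1 := by rw [← Real.exp_add, add_neg_cancel, Real.exp_zero]
  have h4 := Real.exp_pos y
  have h5 : Real.exp y * (1 - y) ≤ 1 :=
    (mul_le_mul_of_nonneg_left h2 h4.le).trans h3.le
  have h6 : (1 : ℝ) ≤ (1 + 2 * y) * (1 - y) := by nlinarith
  have h7 : Real.exp y * (1 - y) ≤ (1 + 2 * y) * (1 - y) := h5.trans h6
  exact le_of_mul_le_mul_right h7 (by linarith)

theorem large (η δ : ℝ) (hη : 0 < η) (hδ : 0 < δ) (K : ℝ) (X₀ k : ℕ) : ∃ A : ℕ, ∀ a : ℕ, A ≤ a →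
    X₀ ≤ a ∧ 2 ≤ a ∧ 2 * k.factorial + k < a ∧ Real.log a ≤ η * (a : ℝ) ^ (1 / 4 : ℝ) ∧
      K ≤ (a : ℝ) ^ (δ / 2) := by
  have h1 : ∀ᶠ x : ℝ in atTop, Real.log x ≤ η * x ^ (1 / 4 : ℝ) := by
    have h := (isLittleO_log_rpow_atTop (by norm_num : (0 : ℝ) < 1 / 4)).def hη
    filter_upwards [h, eventually_ge_atTop 1] with x hx hx1
    rw [Real.norm_of_nonneg (Real.log_nonneg hx1),
      Real.norm_of_nonneg (Real.rpow_nonneg (by linarith) _)] at hx
    exact hx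
  have h2 : ∀ᶠ x : ℝ in atTop, K ≤ x ^ (δ / 2) :=
    (tendsto_rpow_atTop (by linarith : 0 < δ / 2)).eventually_ge_atTop K
  have h3 := tendsto_natCast_atTop_atTop.eventually (h1.and h2)
  obtain ⟨A, hA⟩ := eventually_atTop.mp h3
  refine ⟨max (max A X₀) (max 2 (2 * k.factorial + k + 1)), fun a ha => ?_⟩
  have h4 := hA a (by omega)
  exact ⟨by omega, by omega, by omega, h4.1, h4.2⟩

theorem short {δ₀ η : ℝ} {X₀ : ℕ} (hη : 0 < η)
    (hH : ∀ X Y : ℕ, X₀ ≤ X → (X : ℝ) ^ (1 - δ₀) ≤ Y → Y ≤ X →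
      η * Y / Real.log X ≤ (((Ioc X (X + Y)).filter Nat.Prime).card : ℝ))
    {δ : ℝ} (hδ : 0 < δ) (hδ1 : δ ≤ δ₀) (hδ2 : δ ≤ 1 / 2) {k : ℕ} (hk : 2 ≤ k) :
    ∃ A : ℕ, ∀ n a b : ℕ, A ≤ a → a.Prime → a ≤ b → b ≤ 2 * a →
      n.choose k = ∏ p ∈ Bl a b, p → (a : ℝ) ^ (δ / 2) ≤ ((Bl a b).card : ℝ) := by
  obtain ⟨A, hA⟩ := large η δ hη hδ (8 * k.factorial) X₀ k
  refine ⟨A, fun n a b hAa hap hab hb2 hP => ?_⟩
  obtain ⟨hX, ha2, haK, hlog, hK⟩ := hA a hAa
  by_contra hlt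
  push Not at hlt
  have ha0 : (0 : ℝ) < a := by exact_mod_cast (by omega : 0 < a)
  have ha1 : (1 : ℝ) ≤ a := by exact_mod_cast (by omega : 1 ≤ a)
  have hla : 0 < Real.log a := Real.log_pos (by exact_mod_cast (by omega : 1 < a))
  -- the interval is short
  have hY : ((b - a : ℕ) : ℝ) < (a : ℝ) ^ (1 - δ) := by
    by_contra hge
    push Not at hge
    have h1 : (a : ℝ) ^ (1 - δ₀) ≤ ((b - a : ℕ) : ℝ) :=
      (Real.rpow_le_rpow_of_exponent_le ha1 (by linarith)).trans hge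
    have h2 := hH a (b - a) hX h1 (by omega)
    have h3 : (((Ioc a (a + (b - a))).filter Nat.Prime).card : ℝ) ≤ ((Bl a b).card : ℝ) := by
      have : (Ioc a (a + (b - a))).filter Nat.Prime ⊆ Bl a b := by
        intro p hp
        rw [mem_filter, mem_Ioc] at hp
        rw [Bl, mem_filter, mem_Icc]
        exact ⟨⟨by omega, by omega⟩, hp.2⟩
      exact_mod_cast card_le_card this
    have h4 : (a : ℝ) ^ (1 / 2 : ℝ) ≤ ((b - a : ℕ) : ℝ) :=
      (Real.rpow_le_rpow_of_exponent_le ha1 (by linarith)).trans hge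
    have h5 : (a : ℝ) ^ (1 / 4 : ℝ) ≤ η * ((b - a : ℕ) : ℝ) / Real.log a := by
      rw [le_div_iff₀ hla]
      have h6 : (a : ℝ) ^ (1 / 4 : ℝ) * (a : ℝ) ^ (1 / 4 : ℝ) = (a : ℝ) ^ (1 / 2 : ℝ) := by
        rw [← Real.rpow_add ha0]; norm_num
      have h7 : (0 : ℝ) < (a : ℝ) ^ (1 / 4 : ℝ) := Real.rpow_pos_of_pos ha0 _
      calc (a : ℝ) ^ (1 / 4 : ℝ) * Real.log a
          ≤ (a : ℝ) ^ (1 / 4 : ℝ) * (η * (a : ℝ) ^ (1 / 4 : ℝ)) :=
            mul_le_mul_of_nonneg_left hlog h7.le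
        _ = η * (a : ℝ) ^ (1 / 2 : ℝ) := by rw [← h6]; ring
        _ ≤ η * ((b - a : ℕ) : ℝ) := mul_le_mul_of_nonneg_left h4 hη.le
    have h8 : (a : ℝ) ^ (δ / 2) ≤ (a : ℝ) ^ (1 / 4 : ℝ) :=
      Real.rpow_le_rpow_of_exponent_le ha1 (by linarith)
    linarith
  set y : ℝ := (a : ℝ) ^ (-(δ / 2)) with hy
  have hy0 : 0 < y := Real.rpow_pos_of_pos ha0 _
  have hyz : y * (a : ℝ) ^ (δ / 2) = 1 := by
    rw [hy, ← Real.rpow_add ha0, neg_add_cancel, Real.rpow_zero]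
  have hK1 : (1 : ℝ) ≤ k.factorial := by exact_mod_cast Nat.factorial_pos k
  have hy8 : 8 * (k.factorial : ℝ) * y ≤ 1 := by
    rw [← hyz, mul_comm y]
    exact mul_le_mul_of_nonneg_right hK hy0.le
  have hyh : y ≤ 1 / 2 := by nlinarith
  refine comb (B := Bl a b) (a := a) (b := b) (θ := 2 * y) hk (fun p hp => ?_)
    ⟨a, ?_⟩ hP haK (by positivity) (by linarith) fun s hs => ?_
  · rw [Bl, mem_filter, mem_Icc] at hp
    exact ⟨hp.2, hp.1.1, hp.1.2⟩
  · rw [Bl, mem_filter, mem_Icc]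
    exact ⟨⟨le_rfl, hab⟩, hap⟩
  · set x : ℝ := ((b - a : ℕ) : ℝ) / a with hx
    have hx0 : 0 ≤ x := by positivity
    have hbx : (b : ℝ) = a * (1 + x) := by
      have : ((b - a : ℕ) : ℝ) = b - a := by push_cast [hab]; ring
      rw [hx, this]
      field_simp
      ring
    have hsx : (s : ℝ) * x ≤ y := by
      have h1 : (s : ℝ) ≤ (a : ℝ) ^ (δ / 2) := by
        have : (s : ℝ) ≤ ((Bl a b).card : ℝ) := by exact_mod_cast hs
        linarith
      have h2 : x ≤ (a : ℝ) ^ (-δ) := by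
        rw [hx, div_le_iff₀ ha0]
        have h3 : (a : ℝ) ^ (-δ) * a = (a : ℝ) ^ (1 - δ) := by
          nth_rw 2 [← Real.rpow_one (a : ℝ)]
          rw [← Real.rpow_add ha0]
          congr 1
          ring
        rw [h3]
        exact hY.le
      have h3 : y = (a : ℝ) ^ (δ / 2) * (a : ℝ) ^ (-δ) := by
        rw [← Real.rpow_add ha0, hy]
        congr 1
        ring
      rw [h3]
      exact mul_le_mul h1 h2 hx0 (Real.rpow_nonneg ha0.le _)
    have h4 : (1 + x) ^ s ≤ 1 + 2 * y := by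
      have h5 : (1 + x) ^ s ≤ Real.exp x ^ s :=
        pow_le_pow_left₀ (by positivity) (by linarith [Real.add_one_le_exp x]) s
      rw [← Real.exp_nat_mul] at h5
      exact h5.trans ((Real.exp_le_exp.mpr hsx).trans (exp_le hy0.le hyh))
    rw [hbx, mul_pow, mul_comm]
    exact mul_le_mul_of_nonneg_right h4 (by positivity)

theorem card_le {k n a b : ℕ} (hP : n.choose k = ∏ p ∈ Bl a b, p) :
    ((Bl a b).card : ℝ) ≤ 2 * k * Real.log n := by
  have h1 : 2 ^ (Bl a b).card ≤ ∏ p ∈ Bl a b, p := by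
    rw [← prod_const]
    exact prod_le_prod (fun _ _ => Nat.zero_le _) fun p hp => (mem_filter.mp hp).2.two_le
  have h2 : 2 ^ (Bl a b).card ≤ n ^ k := by
    rw [← hP] at h1
    exact h1.trans (Nat.choose_le_pow n k)
  have h3 : ((2 : ℝ) ^ (Bl a b).card) ≤ (n : ℝ) ^ k := by exact_mod_cast h2
  have h4 := Real.log_le_log (by positivity) h3
  rw [Real.log_pow, Real.log_pow] at h4
  have h5 := Real.log_two_gt_d9
  have h6 : (0 : ℝ) ≤ ((Bl a b).card : ℝ) := by positivity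
  nlinarith

theorem main (hH : Hoheisel) : ∃ C : ℝ, 1 ≤ C ∧ ∀ k : ℕ, 2 ≤ k → ∃ N : ℕ, 1 ≤ N ∧ ∀ n : ℕ, N ≤ n →
    ∀ a b : ℕ, a.Prime → a ≤ b → n.choose k = ∏ p ∈ Bl a b, p →
      (b : ℝ) ≤ Real.log n ^ C := by
  obtain ⟨δ₀, η, hδ₀, hδ₁, hη, X₀, hX₀, hH⟩ := hH
  set δ : ℝ := min δ₀ (1 / 2) with hδdef
  have hδ : 0 < δ := lt_min hδ₀ (by norm_num)
  have hδ1 : δ ≤ δ₀ := min_le_left _ _
  have hδ2 : δ ≤ 1 / 2 := min_le_right _ _
  have hC5 : 4 ≤ 2 / δ := by rw [le_div_iff₀ hδ]; linarith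
  refine ⟨2 / δ + 1, by linarith, fun k hk => ?_⟩
  obtain ⟨A, hA⟩ := short hη hH hδ hδ1 hδ2 hk
  set M : ℝ := 1 + (32 * (k : ℝ) ^ 2 / η ^ 2 + 1) + 2 * (2 * (k : ℝ)) ^ (2 / δ) + (2 * X₀ + 1) +
    2 * A with hM
  obtain ⟨N, hN⟩ := exists_nat_gt (Real.exp M)
  have t1 : (0 : ℝ) ≤ 32 * (k : ℝ) ^ 2 / η ^ 2 := by positivity
  have t2 : (0 : ℝ) ≤ 2 * (2 * (k : ℝ)) ^ (2 / δ) := by positivity
  have t3 : (0 : ℝ) ≤ (X₀ : ℝ) := by positivity
  have t4 : (0 : ℝ) ≤ (A : ℝ) := by positivity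
  refine ⟨max N 1, le_max_right _ _, fun n hn a b hap hab hP => ?_⟩
  have hn1 : 1 ≤ n := (le_max_right _ _).trans hn
  have hn0 : (0 : ℝ) < n := by exact_mod_cast hn1
  have hNn : (N : ℝ) ≤ n := by exact_mod_cast (le_max_left _ _).trans hn
  set l : ℝ := Real.log n with hl
  have hlM : M ≤ l := by
    rw [hl, Real.le_log_iff_exp_le hn0]
    linarith
  have hl1 : 1 ≤ l := by linarith
  have hl0 : 0 < l := by linarith
  have hL := card_le hP
  have hlC : l ≤ l ^ (2 / δ + 1) := by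
    nth_rw 1 [← Real.rpow_one l]
    exact Real.rpow_le_rpow_of_exponent_le hl1 (by linarith)
  have hk0 : (0 : ℝ) < k := by exact_mod_cast (by omega : 0 < k)
  by_cases hb2 : b ≤ 2 * a
  · by_cases haA : A ≤ a
    · have h1 := hA n a b haA hap hab hb2 hP
      have ha0 : (0 : ℝ) ≤ a := by positivity
      have h2 : (a : ℝ) ≤ (2 * k * l) ^ (2 / δ) := by
        have h3 : ((a : ℝ) ^ (δ / 2)) ^ (2 / δ) = a := by
          rw [← Real.rpow_mul ha0]
          have : δ / 2 * (2 / δ) = 1 := by field_simp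
          rw [this, Real.rpow_one]
        rw [← h3]
        exact Real.rpow_le_rpow (Real.rpow_nonneg ha0 _) (h1.trans hL) (by positivity)
      rw [Real.mul_rpow (by positivity) hl0.le] at h2
      have h4 : (b : ℝ) ≤ 2 * a := by exact_mod_cast hb2
      have h5 : (0 : ℝ) < l ^ (2 / δ) := Real.rpow_pos_of_pos hl0 _
      rw [Real.rpow_add_one hl0.ne']
      have h6 : 2 * (2 * (k : ℝ)) ^ (2 / δ) ≤ l := by linarith
      nlinarith [mul_le_mul_of_nonneg_right h6 h5.le]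
    · have h1 : b ≤ 2 * A := by omega
      have h2 : (b : ℝ) ≤ 2 * A := by exact_mod_cast h1
      linarith
  · push Not at hb2
    set X : ℕ := b / 2 with hX
    have hXa : a ≤ X := by omega
    have hbX : b ≤ 2 * X + 1 := by omega
    have hbX' : (b : ℝ) ≤ 2 * X + 1 := by exact_mod_cast hbX
    by_cases hXX : X₀ ≤ X
    · have hX1 : 1 ≤ X := by omega
      have hXr : (1 : ℝ) ≤ X := by exact_mod_cast hX1
      have h1 := hH X X hXX (by
        nth_rw 2 [← Real.rpow_one (X : ℝ)]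
        exact Real.rpow_le_rpow_of_exponent_le hXr (by linarith)) le_rfl
      have h2 : (((Ioc X (X + X)).filter Nat.Prime).card : ℝ) ≤ ((Bl a b).card : ℝ) := by
        have : (Ioc X (X + X)).filter Nat.Prime ⊆ Bl a b := by
          intro p hp
          rw [mem_filter, mem_Ioc] at hp
          rw [Bl, mem_filter, mem_Icc]
          exact ⟨⟨by omega, by omega⟩, hp.2⟩
        exact_mod_cast card_le_card this
      have hX2 : 1 < X := by omega
      have hlX : 0 < Real.log X := Real.log_pos (by exact_mod_cast hX2)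
      have h3 : η * X ≤ (2 * k * l) * Real.log X := by
        rw [← div_le_iff₀ hlX]
        linarith
      have h4 : Real.log X ≤ 2 * √(X : ℝ) := by
        have h := Real.log_le_rpow_div (x := (X : ℝ)) (by positivity) (by norm_num : (0 : ℝ) < 1 / 2)
        rw [← Real.sqrt_eq_rpow] at h
        linarith
      have h5 : η * X ≤ 4 * k * l * √(X : ℝ) := by
        have : (2 * k * l) * Real.log X ≤ (2 * k * l) * (2 * √(X : ℝ)) :=
          mul_le_mul_of_nonneg_left h4 (by positivity)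
        linarith
      have h6 : 0 < √(X : ℝ) := Real.sqrt_pos.mpr (by linarith)
      have h7 : √(X : ℝ) * √(X : ℝ) = X := Real.mul_self_sqrt (by positivity)
      have h8 : η * √(X : ℝ) ≤ 4 * k * l := by
        refine le_of_mul_le_mul_right ?_ h6
        calc η * √(X : ℝ) * √(X : ℝ) = η * X := by rw [mul_assoc, h7]
          _ ≤ _ := h5
      have h9 : √(X : ℝ) ≤ 4 * k * l / η := by
        rw [le_div_iff₀ hη]; linarith
      have h10 : (X : ℝ) ≤ (4 * k * l / η) ^ 2 := by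
        rw [← h7, ← pow_two]
        exact pow_le_pow_left₀ h6.le h9 2
      have h11 : (b : ℝ) ≤ (32 * (k : ℝ) ^ 2 / η ^ 2 + 1) * l ^ 2 := by
        have e : (4 * k * l / η) ^ 2 = 16 * (k : ℝ) ^ 2 / η ^ 2 * l ^ 2 := by
          field_simp; ring
        rw [e] at h10
        have : (1 : ℝ) ≤ l ^ 2 := one_le_pow₀ hl1
        have e2 : 32 * (k : ℝ) ^ 2 / η ^ 2 = 2 * (16 * (k : ℝ) ^ 2 / η ^ 2) := by ring
        rw [e2]
        nlinarith
      have h12 : (b : ℝ) ≤ l ^ (3 : ℝ) := by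
        have : l ^ (3 : ℝ) = l * l ^ 2 := by
          rw [show (3 : ℝ) = ((3 : ℕ) : ℝ) by norm_num, Real.rpow_natCast]; ring
        rw [this]
        refine h11.trans (mul_le_mul_of_nonneg_right (by linarith) (by positivity))
      exact h12.trans (Real.rpow_le_rpow_of_exponent_le hl1 (by linarith))
    · have h1 : b ≤ 2 * X₀ + 1 := by omega
      have h2 : (b : ℝ) ≤ 2 * X₀ + 1 := by exact_mod_cast h1
      linarith

end Pool.Agent.K1H82.BC
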